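import Pool.Agent.R643.Roots
import Pool.Agent.R643.Tree
import Pool.Agent.R643.QGroup

set_option autoImplicit false

/-!
# Free `ℚ`-groups of rank at least two act freely on no `Λ`-tree

The idea: let `G` act freely on a `Λ`-tree, let `a`, `b` be nontrivial, and choose points `p`, `q`
on the axes of `a` and `b` which realise the bridge (or suitable orientations if the axes meet).
The axis of `ab` contains the segment from `p` to `a p` and the axis of `ab` also contains the
segment from `q` to `b q`, while the axes of `ab` and `ba` share the bridge. If all of `a`, `b`,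
`ab`, `ba` have fifth roots, then one of these three overlaps is longer than the sum of the
translation lengths of the two roots, which forces the roots to commute.
-/

namespace Pool.Agent.Results.MP_c6101b_al.NoFreeAction

open Pool.Agent.R643

universe u v w l t

/-- The group `F` acts freely on the `Λ`-tree `(T, d)`: it acts by isometries, and a nontrivial
element fixes no point and inverts no segment, that is, it does not map a segment onto itself
exchanging its two different endpoints. -/
structure ActsFreely (F : Type v) [Group F] {Λ : Type l} [AddCommGroup Λ] [LinearOrder Λ]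
    {T : Type t} [MulAction F T] (d : T → T → Λ) : Prop where
  isometry : ∀ (g : F) (x y : T), d (g • x) (g • y) = d x y
  fixes_no_point : ∀ g : F, g ≠ 1 → ∀ x : T, g • x ≠ x
  inverts_no_segment : ∀ g : F, g ≠ 1 → ∀ (x y : T) (S : Set T), x ≠ y → IsSegment d S x y →
    ¬ ((fun p => g • p) '' S = S ∧ g • x = y ∧ g • y = x)

/-- the set of points of a tree on a segment is determined by the endpoints -/
theorem seg_unique {Λ : Type l} [AddCommGroup Λ] [LinearOrder Λ] [IsOrderedAddMonoid Λ]
    {T : Type t} {d : T → T → Λ} (h : IsLambdaTree d) {S S' : Set T} {x y : T}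
    (hS : IsSegment d S x y) (hS' : IsSegment d S' x y) : S = S' := by
  obtain ⟨m, m1, m2, m3, m4⟩ := h.int hS hS'
  have hy : d x y ≤ d x m := (m3 y hS.facts.2.1).1 hS'.facts.2.1
  have hle : ∀ p ∈ S, d x p ≤ d x y := by
    intro p hp
    have h1 := hS.facts.2.2.2.1 p hp
    have h2 := hS.facts.2.2.2.2.1 p hp y hS.facts.2.1
    have h3 : 0 ≤ d p y := by rw [h2]; exact abs_nonneg _
    grind
  have hle' : ∀ p ∈ S', d x p ≤ d x y := by
    intro p hp
    have h1 := hS'.facts.2.2.2.1 p hp
    have h2 := hS'.facts.2.2.2.2.1 p hp y hS'.facts.2.1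
    have h3 : 0 ≤ d p y := by rw [h2]; exact abs_nonneg _
    grind
  ext p
  exact ⟨fun hp => (m3 p hp).2 ((hle p hp).trans hy), fun hp => (m4 p hp).2 ((hle' p hp).trans hy)⟩

theorem symm_seg {Λ : Type l} [AddCommGroup Λ] [LinearOrder Λ] [IsOrderedAddMonoid Λ]
    {T : Type t} {d : T → T → Λ} {S : Set T} {x y : T}
    (hS : IsSegment d S x y) : IsSegment d S y x := by
  obtain ⟨a, b, φ, hab, h1, h2, h3, h4⟩ := hS
  have hmem : ∀ s ∈ Set.Icc a b, a + b - s ∈ Set.Icc a b := by
    intro s hs
    have := hs.1
    have := hs.2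
    constructor <;> grind
  refine ⟨a, b, fun s => φ (a + b - s), hab, ?_, ?_, ?_, ?_⟩
  · show φ (a + b - a) = y
    rw [add_sub_cancel_left, h2]
  · show φ (a + b - b) = x
    rw [add_sub_cancel_right, h1]
  · intro s hs r hr
    rw [h3 _ (hmem s hs) _ (hmem r hr), abs_sub_comm]
    congr 1; grind
  · rw [← h4]
    ext p
    constructor
    · rintro ⟨s, hs, rfl⟩
      exact ⟨_, hmem s hs, rfl⟩
    · rintro ⟨s, hs, rfl⟩
      refine ⟨_, hmem s hs, ?_⟩
      show φ (a + b - (a + b - s)) = φ s
      congr 1; grind

theorem image_seg {F : Type v} [Group F] {Λ : Type l} [AddCommGroup Λ] [LinearOrder Λ]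
    {T : Type t} [MulAction F T] {d : T → T → Λ}
    (hiso : ∀ (g : F) (x y : T), d (g • x) (g • y) = d x y) (g : F) {S : Set T} {x y : T}
    (hS : IsSegment d S x y) : IsSegment d ((fun p => g • p) '' S) (g • x) (g • y) := by
  obtain ⟨a, b, φ, hab, h1, h2, h3, h4⟩ := hS
  refine ⟨a, b, fun s => g • φ s, hab, by simp only [h1], by simp only [h2], ?_, ?_⟩
  · intro s hs r hr
    rw [hiso, h3 s hs r hr]
  · rw [← h4, Set.image_image]

/-- A group acting freely on a `Λ`-tree in which every element is a fifth power is commutative. -/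
theorem comm_of_roots {F : Type v} [Group F] {Λ : Type l} [AddCommGroup Λ] [LinearOrder Λ]
    [IsOrderedAddMonoid Λ] {T : Type t} [MulAction F T] {d : T → T → Λ} (hT : IsLambdaTree d)
    (hA : ActsFreely F d) (hr : ∀ g : F, ∃ x : F, x ^ 5 = g) (a b : F) : a * b = b * a := by
  obtain ⟨K, iK, iL, iO, f, hf⟩ := exists_ring Λ
  have A : FreeAct (fun x y : T => f (d x y)) F :=
    { zh := hT.toZH hf
      iso := fun g x y => by simp only [hA.isometry]
      free := by
        intro g hg x hx
        obtain ⟨S, hS⟩ := hT.joined x (g • x)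
        by_cases hne : x = g • x
        · exact hA.fixes_no_point g hg x hne.symm
        · refine hA.inverts_no_segment g hg x (g • x) S hne hS ⟨?_, rfl, hx⟩
          have h1 := image_seg hA.isometry g hS
          rw [hx] at h1
          exact seg_unique hT h1 (symm_seg hS) }
  haveI := hT.nonempty
  exact A.comm hr a b

/-- **Free `ℚ`-groups of rank at least two are not tree-free.** For every set `X` with at least two
elements the free `ℚ`-group on `X` exists, and no free `ℚ`-group on `X` acts freely on a `Λ`-tree,
for any ordered abelian group `Λ`. -/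
theorem result (X : Type u) (hX : ∃ x y : X, x ≠ y) :
    (∃ (F : Type u) (_ : Group F) (ι : X → F), IsFreeQGroup.{u, u, w} ι) ∧
    ∀ (F : Type v) [Group F] (ι : X → F), IsFreeQGroup.{u, v, w} ι →
      ∀ (Λ : Type l) [AddCommGroup Λ] [LinearOrder Λ] [IsOrderedAddMonoid Λ] (T : Type t)
        [MulAction F T] (d : T → T → Λ), IsLambdaTree d → ¬ ActsFreely F d := by
  refine ⟨⟨FQ X, inferInstance, _, FQ.isFree⟩, ?_⟩
  intro F _ ι hι Λ _ _ _ T _ d hT hA
  obtain ⟨x, y, hxy⟩ := hX
  refine hι.not_comm hxy (comm_of_roots hT hA ?_ _ _)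
  intro g
  exact (hι.1 g 5 (by norm_num)).exists

end Pool.Agent.Results.MP_c6101b_al.NoFreeAction
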